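import Pool.Agent.Helper93.KS.St

/-!
# Project KS, module FS2: choice of parameters, dimension two
-/

set_option autoImplicit false

noncomputable section

namespace Pool.Agent.Helper94.KS

open Finset Filter Topology Pool.Agent.Helper93.KS
open Pool.Agent.Helper15.AB (ee Kl StDB StMT)
open Pool.Agent.Helper9.TW (gm Qs fm StMER StC9)
open Pool.Agent.Helper18.TR (StLevel)
open Pool.Agent.Helper93.KP (gk vk tk rn gn TK qk StC8P StVLP StRTS StWEI)

/-- one cell of the weighted sum -/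
private theorem cellsum (u a b : ℕ) (W C : ℝ) (w : ℕ → ℝ) (hW : 0 ≤ W)
    (hw : ∀ j ∈ Ico (a * u) (b * u), w j = W)
    (h : ∑ j ∈ Ico (a * u) (b * u), gm j * (1 - (j : ℝ) / (((58 : ℕ) : ℝ) * u)) ≤ C) :
    ∑ j ∈ Ico (a * u) (b * u), ((kf2 u j : ℕ) : ℝ) * gm j * (1 - (j : ℝ) / (((58 : ℕ) : ℝ) * u)) * (1 + w j) ≤
      2 * (1 + W) * C := by
  have e : ∑ j ∈ Ico (a * u) (b * u), ((kf2 u j : ℕ) : ℝ) * gm j * (1 - (j : ℝ) / (((58 : ℕ) : ℝ) * u)) * (1 + w j) =
      2 * (1 + W) * ∑ j ∈ Ico (a * u) (b * u), gm j * (1 - (j : ℝ) / (((58 : ℕ) : ℝ) * u)) := by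
    rw [Finset.mul_sum]
    apply Finset.sum_congr rfl
    intro j hj
    rw [hw j hj]
    unfold kf2
    push_cast
    ring
  rw [e]
  exact mul_le_mul_of_nonneg_left h (by positivity)

/-- the step function of the relative errors -/
private def wst (u j : ℕ) : ℝ :=
  if j < 22 * u then 741 / 10000 else if j < 33 * u then 3341 / 10000 else if j < 38 * u then 5881 / 10000 else
    if j < 44 * u then 9221 / 10000 else if j < 49 * u then 13731 / 10000 else if j < 55 * u then 20031 / 10000 else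
      25331 / 10000

private theorem wst_nonneg (u j : ℕ) : 0 ≤ wst u j := by
  unfold wst
  split_ifs <;> norm_num

/-- the complete sum -/
private theorem total (u : ℕ) (e : ℝ) (he : 0 ≤ e)
    (h1 : ∑ j ∈ Ico (11 * u) (22 * u), gm j * (1 - (j : ℝ) / (((58 : ℕ) : ℝ) * u)) ≤ 56035 / 100000 + e)
    (h2 : ∑ j ∈ Ico (22 * u) (33 * u), gm j * (1 - (j : ℝ) / (((58 : ℕ) : ℝ) * u)) ≤ 22702 / 100000 + e)
    (h3 : ∑ j ∈ Ico (33 * u) (38 * u), gm j * (1 - (j : ℝ) / (((58 : ℕ) : ℝ) * u)) ≤ 5535 / 100000 + e)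
    (h4 : ∑ j ∈ Ico (38 * u) (44 * u), gm j * (1 - (j : ℝ) / (((58 : ℕ) : ℝ) * u)) ≤ 4369 / 100000 + e)
    (h5 : ∑ j ∈ Ico (44 * u) (49 * u), gm j * (1 - (j : ℝ) / (((58 : ℕ) : ℝ) * u)) ≤ 2164 / 100000 + e)
    (h6 : ∑ j ∈ Ico (49 * u) (55 * u), gm j * (1 - (j : ℝ) / (((58 : ℕ) : ℝ) * u)) ≤ 1233 / 100000 + e)
    (h7 : ∑ j ∈ Ico (55 * u) (58 * u), gm j * (1 - (j : ℝ) / (((58 : ℕ) : ℝ) * u)) ≤ 142 / 100000 + e) :
    ∑ j ∈ Ico (11 * u) (58 * u), ((kf2 u j : ℕ) : ℝ) * gm j * (1 - (j : ℝ) / (((58 : ℕ) : ℝ) * u)) * (1 + wst u j) ≤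
      2341 / 1000 + 30 * e := by
  have c1 := cellsum u 11 22 (741 / 10000) _ (wst u) (by norm_num) (fun j hj => by
    rw [Finset.mem_Ico] at hj
    unfold wst
    rw [if_pos hj.2]) h1
  have c2 := cellsum u 22 33 (3341 / 10000) _ (wst u) (by norm_num) (fun j hj => by
    rw [Finset.mem_Ico] at hj
    unfold wst
    rw [if_neg (by omega), if_pos hj.2]) h2
  have c3 := cellsum u 33 38 (5881 / 10000) _ (wst u) (by norm_num) (fun j hj => by
    rw [Finset.mem_Ico] at hj
    unfold wst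
    rw [if_neg (by omega), if_neg (by omega), if_pos hj.2]) h3
  have c4 := cellsum u 38 44 (9221 / 10000) _ (wst u) (by norm_num) (fun j hj => by
    rw [Finset.mem_Ico] at hj
    unfold wst
    rw [if_neg (by omega), if_neg (by omega), if_neg (by omega), if_pos hj.2]) h4
  have c5 := cellsum u 44 49 (13731 / 10000) _ (wst u) (by norm_num) (fun j hj => by
    rw [Finset.mem_Ico] at hj
    unfold wst
    rw [if_neg (by omega), if_neg (by omega), if_neg (by omega), if_neg (by omega), if_pos hj.2]) h5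
  have c6 := cellsum u 49 55 (20031 / 10000) _ (wst u) (by norm_num) (fun j hj => by
    rw [Finset.mem_Ico] at hj
    unfold wst
    rw [if_neg (by omega), if_neg (by omega), if_neg (by omega), if_neg (by omega), if_neg (by omega),
      if_pos hj.2]) h6
  have c7 := cellsum u 55 58 (25331 / 10000) _ (wst u) (by norm_num) (fun j hj => by
    rw [Finset.mem_Ico] at hj
    unfold wst
    rw [if_neg (by omega), if_neg (by omega), if_neg (by omega), if_neg (by omega), if_neg (by omega),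
      if_neg (by omega)]) h7
  rw [← Finset.sum_Ico_consecutive _ (show 11 * u ≤ 22 * u by omega) (show 22 * u ≤ 58 * u by omega),
    ← Finset.sum_Ico_consecutive _ (show 22 * u ≤ 33 * u by omega) (show 33 * u ≤ 58 * u by omega),
    ← Finset.sum_Ico_consecutive _ (show 33 * u ≤ 38 * u by omega) (show 38 * u ≤ 58 * u by omega),
    ← Finset.sum_Ico_consecutive _ (show 38 * u ≤ 44 * u by omega) (show 44 * u ≤ 58 * u by omega),
    ← Finset.sum_Ico_consecutive _ (show 44 * u ≤ 49 * u by omega) (show 49 * u ≤ 58 * u by omega),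
    ← Finset.sum_Ico_consecutive _ (show 49 * u ≤ 55 * u by omega) (show 55 * u ≤ 58 * u by omega)]
  linarith

theorem hFS2 (hB : StBXQ) (hT : StT2) (hC : StCEL) : StFS2 := by
  intro θ hθ hθ1
  obtain ⟨v1, e1⟩ := hC 11 22 58 (by norm_num) (by norm_num) (by norm_num) (1 / 100000) (by norm_num)
  obtain ⟨v2, e2⟩ := hC 22 33 58 (by norm_num) (by norm_num) (by norm_num) (1 / 100000) (by norm_num)
  obtain ⟨v3, e3⟩ := hC 33 38 58 (by norm_num) (by norm_num) (by norm_num) (1 / 100000) (by norm_num)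
  obtain ⟨v4, e4⟩ := hC 38 44 58 (by norm_num) (by norm_num) (by norm_num) (1 / 100000) (by norm_num)
  obtain ⟨v5, e5⟩ := hC 44 49 58 (by norm_num) (by norm_num) (by norm_num) (1 / 100000) (by norm_num)
  obtain ⟨v6, e6⟩ := hC 49 55 58 (by norm_num) (by norm_num) (by norm_num) (1 / 100000) (by norm_num)
  obtain ⟨v7, e7⟩ := hC 55 58 58 (by norm_num) (by norm_num) (by norm_num) (1 / 100000) (by norm_num)
  obtain ⟨S, hS⟩ : ∃ S : ℕ, S = ⌈(3 / 2 : ℝ) / θ⌉₊ := ⟨_, rfl⟩
  have hS1 : (3 / 2 : ℝ) / θ ≤ S := by rw [hS]; exact Nat.le_ceil _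
  have hS2 : (S : ℝ) < (3 / 2 : ℝ) / θ + 1 := by rw [hS]; exact Nat.ceil_lt_add_one (by positivity)
  obtain ⟨t1, t2, t3, t4, t5, t6, t7, t8, t9⟩ := hT S
  obtain ⟨a1, b1⟩ := t1 (1 / 10000) (by norm_num)
  obtain ⟨a2, b2⟩ := t2 (1 / 10000) (by norm_num)
  obtain ⟨a3, b3⟩ := t3 (1 / 10000) (by norm_num)
  obtain ⟨a4, b4⟩ := t4 (1 / 10000) (by norm_num)
  obtain ⟨a5, b5⟩ := t5 (1 / 10000) (by norm_num)
  obtain ⟨a6, b6⟩ := t6 (1 / 10000) (by norm_num)
  obtain ⟨a7, b7⟩ := t7 (1 / 10000) (by norm_num)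
  obtain ⟨a8, b8⟩ := t8 (1 / 10000) (by norm_num)
  obtain ⟨a9, b9⟩ := t9 (1 / 10000) (by norm_num)
  obtain ⟨js, hjs⟩ : ∃ js : ℕ, js = a1 + a2 + a3 + a4 + a5 + a6 + a7 + a8 + a9 + 50 := ⟨_, rfl⟩
  obtain ⟨u, hu⟩ : ∃ u : ℕ, u = v1 + v2 + v3 + v4 + v5 + v6 + v7 + ⌈(js : ℝ) / θ⌉₊ := ⟨_, rfl⟩
  have hu1 : (js : ℝ) / θ ≤ u := by
    have h0 := Nat.le_ceil ((js : ℝ) / θ)
    have h : ((⌈(js : ℝ) / θ⌉₊ : ℕ) : ℝ) ≤ u := by
      rw [hu]
      exact_mod_cast Nat.le_add_left _ _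
    linarith
  have hjsu : (js : ℝ) ≤ u * θ := by
    rw [div_le_iff₀ hθ] at hu1
    exact hu1
  have hjs2 : (50 : ℝ) ≤ js := by
    exact_mod_cast (by omega : 50 ≤ js)
  have hupos : (0 : ℝ) < u := by
    by_contra hcon
    push Not at hcon
    have : (u : ℝ) * θ ≤ 0 := mul_nonpos_of_nonpos_of_nonneg hcon hθ.le
    linarith
  have hu1' : 1 ≤ u := by
    have : (0 : ℕ) < u := by exact_mod_cast hupos
    omega
  obtain ⟨j0, hj0⟩ : ∃ j0 : ℕ, j0 = ⌊100 * (u : ℝ) * θ⌋₊ := ⟨_, rfl⟩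
  have hj0le : (j0 : ℝ) ≤ 100 * u * θ := by rw [hj0]; exact Nat.floor_le (by positivity)
  have hj0lt : 100 * (u : ℝ) * θ < j0 + 1 := by rw [hj0]; exact Nat.lt_floor_add_one _
  have hj0js : js ≤ j0 := by
    have h : (js : ℝ) ≤ 100 * u * θ := by
      have : (0 : ℝ) ≤ u * θ := by positivity
      nlinarith
    rw [hj0]
    exact Nat.le_floor h
  have hj0u : (j0 : ℝ) ≤ u := by nlinarith
  have hj0u' : j0 ≤ u := by exact_mod_cast hj0u
  have hj0z : j0 ≤ 11 * u := by omega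
  have hω : (0 : ℝ) < 1 / (100 * u) := by positivity
  have hNm : ((S * j0 : ℕ) : ℝ) * (1 / (100 * u)) ≤ 2 := by
    push_cast
    have h1 : (S : ℝ) * j0 ≤ ((3 / 2 : ℝ) / θ + 1) * (100 * u * θ) :=
      mul_le_mul hS2.le hj0le (Nat.cast_nonneg _) (by positivity)
    have h2 : ((3 / 2 : ℝ) / θ + 1) * (100 * u * θ) = (3 / 2 + θ) * (100 * u) := by
      field_simp
    rw [mul_one_div, div_le_iff₀ (by positivity)]
    rw [h2] at h1
    nlinarith
  have hNS : 99 * u ≤ S * j0 := by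
    have h1 : ((3 / 2 : ℝ) / θ) * (100 * u * θ - 1) ≤ (S : ℝ) * j0 := by
      apply mul_le_mul hS1 (by linarith) _ (Nat.cast_nonneg _)
      have : (1 : ℝ) ≤ 100 * u * θ := by nlinarith
      linarith
    have h2 : ((3 / 2 : ℝ) / θ) * (100 * u * θ - 1) = 150 * u - (3 / 2) / θ := by
      field_simp
      ring
    have h3 : (3 / 2 : ℝ) / θ ≤ u := by
      rw [div_le_iff₀ hθ]
      linarith
    have h4' : ((99 * u : ℕ) : ℝ) ≤ ((S * j0 : ℕ) : ℝ) := by
      push_cast
      linarith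
    exact_mod_cast h4'
  have hax := hB 2 (1 / (100 * u)) j0 (S * j0) le_rfl hω (by omega) hNm
  refine ⟨u, j0, hu1', by omega, hj0z, ?_, 41 / 10000, 41 / 10000, wst u, by norm_num, by norm_num, wst_nonneg u,
    ?_, ?_, ?_, ?_⟩
  · rw [mul_one_div, div_le_iff₀ (by positivity)]
    linarith
  · have h := b1 j0 (by omega) _ _ hax (11 * u) (99 * u) hj0z hNS (by push_cast; linarith)
    norm_num at h ⊢
    exact h
  · have h := b2 j0 (by omega) _ _ hax (11 * u) (99 * u) hj0z hNS (by push_cast; linarith)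
    norm_num at h ⊢
    exact h
  · intro j hj
    rw [Finset.mem_Ico] at hj
    have hcast : ((99 * u - (j + 1) : ℕ) : ℝ) = 99 * u - ((j : ℝ) + 1) := by
      rw [Nat.cast_sub (by omega)]
      push_cast
      ring
    have hN : 99 * u - (j + 1) ≤ S * j0 := by omega
    unfold wst
    split_ifs with k1 k2 k3 k4 k5 k6
    · have hj' : (j : ℝ) + 1 ≤ 22 * u := by exact_mod_cast k1
      have h := b3 j0 (by omega) _ _ hax (11 * u) (99 * u - (j + 1)) hj0z hN (by
        rw [hcast]; push_cast; linarith)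
      have e : (741 / 10000 : ℝ) = 740 / 10000 + 1 / 10000 := by norm_num
      rw [e]; exact h
    · have hj' : (j : ℝ) + 1 ≤ 33 * u := by exact_mod_cast k2
      have h := b4 j0 (by omega) _ _ hax (11 * u) (99 * u - (j + 1)) hj0z hN (by
        rw [hcast]; push_cast; linarith)
      have e : (3341 / 10000 : ℝ) = 3340 / 10000 + 1 / 10000 := by norm_num
      rw [e]; exact h
    · have hj' : (j : ℝ) + 1 ≤ 38 * u := by exact_mod_cast k3
      have h := b5 j0 (by omega) _ _ hax (11 * u) (99 * u - (j + 1)) hj0z hN (by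
        rw [hcast]; push_cast; linarith)
      have e : (5881 / 10000 : ℝ) = 5880 / 10000 + 1 / 10000 := by norm_num
      rw [e]; exact h
    · have hj' : (j : ℝ) + 1 ≤ 44 * u := by exact_mod_cast k4
      have h := b6 j0 (by omega) _ _ hax (11 * u) (99 * u - (j + 1)) hj0z hN (by
        rw [hcast]; push_cast; linarith)
      have e : (9221 / 10000 : ℝ) = 9220 / 10000 + 1 / 10000 := by norm_num
      rw [e]; exact h
    · have hj' : (j : ℝ) + 1 ≤ 49 * u := by exact_mod_cast k5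
      have h := b7 j0 (by omega) _ _ hax (11 * u) (99 * u - (j + 1)) hj0z hN (by
        rw [hcast]; push_cast; linarith)
      have e : (13731 / 10000 : ℝ) = 13730 / 10000 + 1 / 10000 := by norm_num
      rw [e]; exact h
    · have hj' : (j : ℝ) + 1 ≤ 55 * u := by exact_mod_cast k6
      have h := b8 j0 (by omega) _ _ hax (11 * u) (99 * u - (j + 1)) hj0z hN (by
        rw [hcast]; push_cast; linarith)
      have e : (20031 / 10000 : ℝ) = 20030 / 10000 + 1 / 10000 := by norm_num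
      rw [e]; exact h
    · have hj' : (j : ℝ) + 1 ≤ 58 * u := by exact_mod_cast hj.2
      have h := b9 j0 (by omega) _ _ hax (11 * u) (99 * u - (j + 1)) hj0z hN (by
        rw [hcast]; push_cast; linarith)
      have e : (25331 / 10000 : ℝ) = 25330 / 10000 + 1 / 10000 := by norm_num
      rw [e]; exact h
  · have g := total u (1 / 100000) (by norm_num) ((e1 u (by omega) hu1').trans (by norm_num))
      ((e2 u (by omega) hu1').trans (by norm_num)) ((e3 u (by omega) hu1').trans (by norm_num))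
      ((e4 u (by omega) hu1').trans (by norm_num)) ((e5 u (by omega) hu1').trans (by norm_num))
      ((e6 u (by omega) hu1').trans (by norm_num)) ((e7 u (by omega) hu1').trans (by norm_num))
    linarith

end Pool.Agent.Helper94.KS
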